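import Mathlib
import Pool.Agent.TH949.TX.Rat4

/-!
# Maass forms of Galois type: primes at which `|a_p|²` is not an integer

Let `π` be a unitary cuspidal automorphic representation of `GL_2` over `ℚ`, unramified outside the finite set `S`, with
Satake parameters `α_p, β_p` and Hecke eigenvalues `a_p = α_p + β_p`, `p ∉ S`. Suppose that the lift
`A⁴ π = Sym⁴ π ⊗ ω^{-2}` to `GL_5` is cuspidal, i.e. that `π` is not dihedral, tetrahedral or octahedral. We show that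
**at every scale `|a_p|²` is not an integer at many primes**:

* for every `c < 1/2` and **all** large `X` there are at least `X^c` primes `p ≤ X`, `p ∉ S`, with `|a_p|² ∉ ℤ`; the same holds
  for every `c < 4 |log_p |α_p / β_p||`, `p ∉ S`;
* for every `c < 25/49`, their number is not `O(x^c)`.

In other words, if `|a_p|² ∈ ℤ` for all but at most `X^c` primes `p ≤ X`, for some `c < 1/2` and an unbounded sequence of
numbers `X`, then `π` is dihedral, tetrahedral or octahedral. If moreover `π` is algebraic (`π_∞` of Galois type: a Maass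
form of eigenvalue `1/4`), then it corresponds to a Galois representation.

The proof: if `|a_p|²` is an integer, then `t = α_p / β_p + β_p / α_p = |a_p|² - 2` is one, and so are the numbers
`t_k = (α_p / β_p)^k + (β_p / α_p)^k`. The trace of the `k`-th power of the parameter of `A⁴ π_p` is `t_k² + t_k - 1`, an
**odd** integer, and it has absolute value `≥ 1`. By `MP_08cfa9_nt.TemperedEveryScale` and
`MP_08cfa9_nt.SmallEigenvaluesAllPlaces` the traces of a cuspidal representation of `GL_n`, `n ≥ 2`, have absolute value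
`< 1` at many prime powers at every scale.

The structure `CuspidalRep` (from these files) lists what is used of `A⁴ π`: the local components are unitary; the
Rankin-Selberg series converges absolutely for `Re s > 1`; `L(s, Π × Π~)` is entire except for a simple pole at
`s = 1`, of polynomial growth in vertical strips, and it satisfies the functional equation.
-/

set_option autoImplicit false

namespace Pool.Agent.Results.MP_ef641d_nt.IntegralSquares

open Pool.Agent.W189.TP (PS)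
open Pool.Agent.TH949.RES (CuspidalRep)
open Pool.Agent.TH949.TX (Adm)

/-- the parameters of a unitary representation -/
def Unitary {n : ℕ} (a : Fin n → ℂ) : Prop :=
  (∀ i, a i ≠ 0) ∧ ∃ τ : Equiv.Perm (Fin n), ∀ i, a (τ i) = ((starRingEnd ℂ) (a i))⁻¹

/-- the Satake parameters of the lift `A⁴ π = Sym⁴ π ⊗ ω^{-2}` to `GL_5` of a representation `π` of `GL_2` with the
central character `ω` -/
noncomputable def lift5 (a : Fin 2 → ℂ) : Fin 5 → ℂ :=
  ![(a 0 / a 1) ^ 2, a 0 / a 1, 1, a 1 / a 0, (a 1 / a 0) ^ 2]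

/-- `|a_p|²` is not an integer -/
def NonIntegral (a : Fin 2 → ℂ) : Prop := ¬ ∃ z : ℤ, ‖a 0 + a 1‖ ^ 2 = z

theorem norm_sq {a : Fin 2 → ℂ} (hu : Unitary a) :
    ((‖a 0 + a 1‖ ^ 2 : ℝ) : ℂ) = (a 0 / a 1) + (a 0 / a 1)⁻¹ + 2 := by
  obtain ⟨h0, τ, hτ⟩ := hu
  have h1 : (starRingEnd ℂ) (a 0 + a 1) = (a 0)⁻¹ + (a 1)⁻¹ := by
    have h2 : ∑ i, (starRingEnd ℂ) (a i) = ∑ i, (a i)⁻¹ := by
      rw [← Equiv.sum_comp τ fun i => (a i)⁻¹]
      refine Finset.sum_congr rfl fun i _ => ?_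
      rw [hτ i, inv_inv]
    rw [Fin.sum_univ_two, Fin.sum_univ_two] at h2
    rw [map_add, h2]
  have h2 : ((‖a 0 + a 1‖ ^ 2 : ℝ) : ℂ) = (a 0 + a 1) * (starRingEnd ℂ) (a 0 + a 1) := by
    rw [Complex.mul_conj, Complex.normSq_eq_norm_sq]
  rw [h2, h1]
  have h3 := h0 0
  have h4 := h0 1
  rw [inv_div]
  field_simp
  ring

/-- Dickson polynomials -/
theorem dickson {t : ℤ} {z : ℂ} (hz : z ≠ 0) (h : z + z⁻¹ = t) (k : ℕ) : ∃ d : ℤ, z ^ k + (z ^ k)⁻¹ = d := by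
  induction k using Nat.strong_induction_on with
  | _ k ih =>
    match k, ih with
    | 0, _ => exact ⟨2, by norm_num⟩
    | 1, _ => exact ⟨t, by rw [pow_one, h]⟩
    | k + 2, ih =>
      obtain ⟨a, ha⟩ := ih k (by omega)
      obtain ⟨b, hb⟩ := ih (k + 1) (by omega)
      refine ⟨t * b - a, ?_⟩
      push_cast
      rw [← ha, ← hb, ← h]
      have hk : z ^ k ≠ 0 := pow_ne_zero _ hz
      rw [pow_succ z (k + 1), pow_succ z k]
      field_simp
      ring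

theorem sum_lift5 {a : Fin 2 → ℂ} (hu : Unitary a) (k : ℕ) :
    ∑ j, lift5 a j ^ k =
      ((a 0 / a 1) ^ k + ((a 0 / a 1) ^ k)⁻¹) ^ 2 + ((a 0 / a 1) ^ k + ((a 0 / a 1) ^ k)⁻¹) - 1 := by
  have h1 : a 1 / a 0 = (a 0 / a 1)⁻¹ := (inv_div _ _).symm
  have h2 : (a 0 / a 1) ^ k ≠ 0 := pow_ne_zero _ (div_ne_zero (hu.1 0) (hu.1 1))
  rw [Fin.sum_univ_five]
  simp only [lift5, Matrix.cons_val_zero, Matrix.cons_val_one, Matrix.cons_val_two, Matrix.head_cons,
    Matrix.tail_cons, Matrix.cons_val_three, Matrix.cons_val_four, one_pow, h1, inv_pow]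
  rw [← pow_mul, mul_comm 2 k, pow_mul]
  generalize (a 0 / a 1) ^ k = z at h2
  field_simp
  ring

/-- if `|a_p|²` is an integer, all the traces are odd integers -/
theorem nonInt {a : Fin 2 → ℂ} (hu : Unitary a) {k : ℕ} (hk : ‖∑ j, lift5 a j ^ k‖ < 1) : NonIntegral a := by
  rintro ⟨z, hz⟩
  have h1 := norm_sq hu
  rw [hz] at h1
  obtain ⟨d, hd⟩ := dickson (t := z - 2) (div_ne_zero (hu.1 0) (hu.1 1)) (by
    push_cast at h1 ⊢
    linear_combination -h1) k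
  rw [sum_lift5 hu, hd] at hk
  have h2 : ((d : ℂ) ^ 2 + (d : ℂ) - 1) = ((d ^ 2 + d - 1 : ℤ) : ℂ) := by push_cast; ring
  rw [h2, Complex.norm_intCast] at hk
  have h3 : |d ^ 2 + d - 1| < 1 := by exact_mod_cast hk
  have h4 : d ^ 2 + d - 1 = 0 := Int.abs_lt_one_iff.1 h3
  have h5 := Int.even_mul_succ_self d
  obtain ⟨e, he⟩ := h5
  have : d * (d + 1) = d ^ 2 + d := by ring
  omega

theorem every_scale {n : ℕ} (hn : 2 ≤ n) {S : Finset Nat.Primes} {γ : PS S → Fin n → ℂ}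
    {β : Nat.Primes → Fin (n ^ 2) → ℂ} {κ : Fin (n ^ 2 - 1) → ℂ} (h : CuspidalRep S γ β κ) {c : ℝ}
    (hc : Adm S γ β κ c) (E : PS S → Prop) (hE : ∀ (p : PS S) (k : ℕ), ‖∑ i, γ p i ^ (k + 1)‖ < 1 → E p) :
    ∃ X₀ : ℝ, ∀ X : ℝ, X₀ ≤ X → X ^ c ≤ (({p : PS S | ((p.1 : ℕ) : ℝ) ≤ X ∧ E p}.ncard : ℕ) : ℝ) := by
  have h1 := Pool.Agent.TH949.TX.adm_key hn h hc (lam := 1) one_pos
  exact Filter.eventually_atTop.1 ((Pool.Agent.TH949.TX.rat_fin h1).2.2 E hE)

theorem resonance {n : ℕ} (hn : 2 ≤ n) {S : Finset Nat.Primes} {γ : PS S → Fin n → ℂ}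
    {β : Nat.Primes → Fin (n ^ 2) → ℂ} {κ : Fin (n ^ 2 - 1) → ℂ} (h : CuspidalRep S γ β κ) {c : ℝ}
    (hc : c < (n : ℝ) ^ 2 / (2 * (n : ℝ) ^ 2 - 1)) (E : PS S → Prop)
    (hE : ∀ (p : PS S) (k : ℕ), ‖∑ i, γ p i ^ (k + 1)‖ < 1 → E p) (C X : ℝ) :
    ∃ x : ℝ, X ≤ x ∧ C * x ^ c < (({p : PS S | ((p.1 : ℕ) : ℝ) ≤ x ∧ E p}.ncard : ℕ) : ℝ) := by
  obtain ⟨x, hx, h1⟩ := Pool.Agent.TH949.RES.ram_count hn h (c := c) (Or.inl hc) C X
  refine ⟨x, hx, h1.trans_le ?_⟩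
  have hfin : {p : PS S | ((p.1 : ℕ) : ℝ) ≤ x ∧ E p}.Finite := by
    refine (Pool.Agent.TH949.TX.primes_log_fin (S := S) (Real.log (max x 1))).subset ?_
    rintro p ⟨hp, -⟩
    have h2 : (0 : ℝ) < ((p.1 : ℕ) : ℝ) := by exact_mod_cast p.1.2.pos
    exact Real.log_le_log h2 (hp.trans (le_max_left _ _))
  have h2 : {p : PS S | ((p.1 : ℕ) : ℝ) ≤ x ∧ ‖∑ i, γ p i‖ < 1} ⊆ {p : PS S | ((p.1 : ℕ) : ℝ) ≤ x ∧ E p} := by
    rintro p ⟨hp, hp2⟩
    refine ⟨hp, hE p 0 ?_⟩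
    simpa only [zero_add, pow_one] using hp2
  exact_mod_cast Set.ncard_le_ncard h2 hfin

/-- **Primes at which `|a_p|²` is not an integer.** -/
theorem result {S : Finset Nat.Primes} {α : PS S → Fin 2 → ℂ} (hu : ∀ p, Unitary (α p))
    {β : Nat.Primes → Fin (5 ^ 2) → ℂ} {κ : Fin (5 ^ 2 - 1) → ℂ}
    (h : CuspidalRep S (fun p => lift5 (α p)) β κ) :
    (∀ c : ℝ, (c < 1 / 2 ∨ ∃ p : PS S, c < 4 * |Real.logb ((p.1 : ℕ) : ℝ) ‖α p 0 / α p 1‖|) →
      ∃ X₀ : ℝ, ∀ X : ℝ, X₀ ≤ X →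
        X ^ c ≤ (({p : PS S | ((p.1 : ℕ) : ℝ) ≤ X ∧ NonIntegral (α p)}.ncard : ℕ) : ℝ)) ∧
    ∀ c : ℝ, c < 25 / 49 → ∀ C X : ℝ, ∃ x : ℝ, X ≤ x ∧
      C * x ^ c < (({p : PS S | ((p.1 : ℕ) : ℝ) ≤ x ∧ NonIntegral (α p)}.ncard : ℕ) : ℝ) := by
  constructor
  · intro c hc
    refine every_scale (by norm_num) h ?_ _ fun p k hk => nonInt (hu p) hk
    rcases hc with hc | ⟨p, hc⟩
    · exact Or.inl hc
    · have h1 : c < 2 * |Real.logb ((p.1 : ℕ) : ℝ) ‖lift5 (α p) 0‖| := by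
        have h2 : lift5 (α p) 0 = (α p 0 / α p 1) ^ 2 := rfl
        rw [h2, norm_pow, Real.logb_pow, abs_mul]
        have h3 : |((2 : ℕ) : ℝ)| = 2 := by norm_num
        rw [h3]
        linarith
      exact Or.inr (Or.inl ⟨p, 0, h1⟩)
  · intro c hc
    exact resonance (by norm_num) h (by norm_num; exact hc) _ fun p k hk => nonInt (hu p) hk

end Pool.Agent.Results.MP_ef641d_nt.IntegralSquares
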